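import Pool.Agent.H807R2.Dav1

set_option autoImplicit false

/-! Parseval's identity for finite sums and the `L²` norm of a correlation. -/

namespace Pool.Agent.E8helper97.GB

open Finset
open Pool.Agent.H807R2.Dav (ee norm_ee ee_add ee_int ee_pow)

lemma conj_ee (x : ℝ) : (starRingEnd ℂ) (ee x) = ee (-x) := by
  unfold ee
  rw [← Complex.exp_conj]
  congr 1
  simp only [map_mul, Complex.conj_ofReal, Complex.conj_I, map_ofNat]
  push_cast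
  ring

lemma ee_ne_one {x : ℝ} (hx : ∀ n : ℤ, x ≠ n) : ee x ≠ 1 := by
  unfold ee
  intro h
  obtain ⟨n, hn⟩ := Complex.exp_eq_one_iff.1 h
  apply hx n
  have h1 : (2 * (Real.pi : ℂ) * Complex.I) ≠ 0 := Complex.two_pi_I_ne_zero
  have h2 : (x : ℂ) = n := by
    apply mul_left_cancel₀ h1
    rw [hn]
    ring
  exact_mod_cast h2

lemma geo_sum {M : ℕ} (hM : M ≠ 0) (d : ℤ) :
    ∑ t ∈ range M, ee ((d : ℝ) * ((t : ℝ) / M)) = if (M : ℤ) ∣ d then (M : ℂ) else 0 := by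
  have hM' : (M : ℝ) ≠ 0 := by exact_mod_cast hM
  have h1 : ∀ t : ℕ, ee ((d : ℝ) * ((t : ℝ) / M)) = ee ((d : ℝ) / M) ^ t := by
    intro t
    rw [← ee_pow]
    congr 1
    ring
  simp only [h1]
  split_ifs with hd
  · obtain ⟨k, rfl⟩ := hd
    have h2 : ee ((((M : ℤ) * k : ℤ) : ℝ) / M) = 1 := by
      have : (((M : ℤ) * k : ℤ) : ℝ) / M = (k : ℝ) := by
        push_cast
        field_simp
      rw [this, ee_int]
    rw [h2]
    simp
  · have h2 : ee ((d : ℝ) / M) ≠ 1 := by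
      apply ee_ne_one
      intro n hn
      apply hd
      refine ⟨n, ?_⟩
      rw [div_eq_iff hM'] at hn
      have : (d : ℝ) = ((M : ℤ) * n : ℤ) := by
        push_cast
        rw [hn]
        ring
      exact_mod_cast this
    rw [geom_sum_eq h2]
    have h3 : ee ((d : ℝ) / M) ^ M = 1 := by
      rw [← ee_pow]
      have : (M : ℝ) * ((d : ℝ) / M) = (d : ℝ) := by field_simp
      rw [this, ee_int]
    rw [h3, sub_self, zero_div]

theorem pars_gen {M : ℕ} (hM : M ≠ 0) (K : Finset ℤ)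
    (hK : ∀ k ∈ K, ∀ k' ∈ K, (M : ℤ) ∣ k - k' → k = k') (H : ℤ → ℂ) :
    ∑ t ∈ range M, ‖∑ k ∈ K, H k * ee ((k : ℝ) * ((t : ℝ) / M))‖ ^ 2 =
      (M : ℝ) * ∑ k ∈ K, ‖H k‖ ^ 2 := by
  have hc : ((∑ t ∈ range M, ‖∑ k ∈ K, H k * ee ((k : ℝ) * ((t : ℝ) / M))‖ ^ 2 : ℝ) : ℂ) =
      (((M : ℝ) * ∑ k ∈ K, ‖H k‖ ^ 2 : ℝ) : ℂ) := by
    push_cast
    have h1 : ∀ t : ℕ, ((‖∑ k ∈ K, H k * ee ((k : ℝ) * ((t : ℝ) / M))‖ : ℝ) : ℂ) ^ 2 =
        ∑ k ∈ K, ∑ k' ∈ K, H k * (starRingEnd ℂ) (H k') *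
          ee (((k - k' : ℤ) : ℝ) * ((t : ℝ) / M)) := by
      intro t
      rw [← Complex.ofReal_pow, ← Complex.normSq_eq_norm_sq, ← Complex.mul_conj, map_sum,
        Finset.sum_mul_sum]
      refine Finset.sum_congr rfl fun k _ => Finset.sum_congr rfl fun k' _ => ?_
      rw [map_mul, conj_ee]
      have : ee (((k - k' : ℤ) : ℝ) * ((t : ℝ) / M)) =
          ee ((k : ℝ) * ((t : ℝ) / M)) * ee (-((k' : ℝ) * ((t : ℝ) / M))) := by
        rw [← ee_add]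
        congr 1
        push_cast
        ring
      rw [this]
      ring
    rw [Finset.sum_congr rfl fun t _ => h1 t, Finset.sum_comm, Finset.mul_sum]
    refine Finset.sum_congr rfl fun k hk => ?_
    rw [Finset.sum_comm]
    have h2 : ∀ k' ∈ K, ∑ t ∈ range M, H k * (starRingEnd ℂ) (H k') *
        ee (((k - k' : ℤ) : ℝ) * ((t : ℝ) / M)) =
        if k = k' then (M : ℂ) * (H k * (starRingEnd ℂ) (H k')) else 0 := by
      intro k' hk'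
      rw [← Finset.mul_sum, geo_sum hM]
      by_cases hkk : k = k'
      · subst hkk
        rw [sub_self, if_pos (dvd_zero _), if_pos rfl]
        ring
      · rw [if_neg hkk, if_neg fun hd => hkk (hK k hk k' hk' hd), mul_zero]
    rw [Finset.sum_congr rfl h2, Finset.sum_ite_eq K k, if_pos hk, Complex.mul_conj,
      Complex.normSq_eq_norm_sq]
    push_cast
    ring
  exact_mod_cast hc

/-- integers of an interval shorter than the modulus are distinct -/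
lemma sep_Icc {M : ℕ} {a b : ℤ} (h : b - a < M) :
    ∀ k ∈ Icc a b, ∀ k' ∈ Icc a b, (M : ℤ) ∣ k - k' → k = k' := by
  intro k hk k' hk' hd
  rw [mem_Icc] at hk hk'
  have h1 := Int.eq_zero_of_abs_lt_dvd hd (by rw [abs_lt]; constructor <;> omega)
  omega

/-- the `L²` norm of a correlation -/
theorem corr_l2 (N : ℕ) (E : ℕ → ℂ) (κ : ℤ → ℂ) (S : ℝ)
    (hS : ∀ α : ℝ, ‖∑ y ∈ Icc 1 N, E y * ee ((y : ℝ) * α)‖ ≤ S) (hκ : ∀ h, ‖κ h‖ ≤ 1) :
    ∑ x ∈ Icc 1 N, ‖∑ y ∈ Icc 1 N, E y * κ ((y : ℤ) - x)‖ ^ 2 ≤ S ^ 2 * (2 * N + 1) := by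
  obtain ⟨Q, hQ⟩ : ∃ Q : ℕ, Q = 4 * N + 1 := ⟨_, rfl⟩
  have hQ0 : Q ≠ 0 := by omega
  have hQr : (0 : ℝ) < Q := by exact_mod_cast Nat.pos_of_ne_zero hQ0
  obtain ⟨J, hJ⟩ : ∃ J : Finset ℤ, J = Icc (-(N : ℤ)) N := ⟨_, rfl⟩
  obtain ⟨K, hK⟩ : ∃ K : Finset ℤ, K = Icc (-(N : ℤ)) (2 * N) := ⟨_, rfl⟩
  obtain ⟨G, hG⟩ : ∃ G : ℤ → ℂ, G = fun x : ℤ => ∑ y ∈ Icc 1 N, E y *
    (if x - (y : ℤ) ∈ J then κ (-(x - (y : ℤ))) else 0) := ⟨_, rfl⟩
  have hft : ∀ t : ℕ, ∑ x ∈ K, G x * ee ((x : ℝ) * ((t : ℝ) / Q)) =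
      (∑ y ∈ Icc 1 N, E y * ee ((y : ℝ) * ((t : ℝ) / Q))) *
        ∑ k ∈ J, κ (-k) * ee ((k : ℝ) * ((t : ℝ) / Q)) := by
    intro t
    rw [hG]
    simp only [sum_mul]
    rw [sum_comm]
    refine sum_congr rfl fun y hy => ?_
    rw [mem_Icc] at hy
    rw [mul_sum]
    have h1 : ∑ k ∈ J, E y * ee ((y : ℝ) * ((t : ℝ) / Q)) *
        (κ (-k) * ee ((k : ℝ) * ((t : ℝ) / Q))) =
        ∑ x ∈ K.filter (fun x => x - (y : ℤ) ∈ J), E y * κ (-(x - y)) *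
          ee ((x : ℝ) * ((t : ℝ) / Q)) := by
      refine sum_nbij' (fun k => k + y) (fun x => x - y) ?_ ?_ ?_ ?_ ?_
      · intro k hk
        rw [hJ, mem_Icc] at hk
        rw [mem_filter, hK, hJ, mem_Icc, mem_Icc]
        refine ⟨⟨?_, ?_⟩, ?_, ?_⟩ <;> omega
      · intro x hx
        exact (mem_filter.1 hx).2
      · intro k _
        ring
      · intro x _
        ring
      · intro k _
        have h2 : ee ((((k + (y : ℤ) : ℤ)) : ℝ) * ((t : ℝ) / Q)) =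
            ee ((y : ℝ) * ((t : ℝ) / Q)) * ee ((k : ℝ) * ((t : ℝ) / Q)) := by
          rw [← ee_add]
          congr 1
          push_cast
          ring
        rw [h2, show -(k + (y : ℤ) - y) = -k by ring]
        ring
    rw [h1, sum_filter]
    refine sum_congr rfl fun x _ => ?_
    split_ifs
    · rfl
    · ring
  have hp1 := pars_gen hQ0 K (by rw [hK]; exact sep_Icc (by omega)) G
  have hp2 := pars_gen hQ0 J (by rw [hJ]; exact sep_Icc (by omega)) (fun k => κ (-k))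
  have hS0 : 0 ≤ S := (norm_nonneg _).trans (hS 0)
  have h3 : (Q : ℝ) * ∑ k ∈ K, ‖G k‖ ^ 2 ≤ S ^ 2 * (Q * ∑ k ∈ J, ‖κ (-k)‖ ^ 2) := by
    rw [← hp1, ← hp2, mul_sum]
    refine sum_le_sum fun t _ => ?_
    rw [hft, norm_mul, mul_pow]
    exact mul_le_mul_of_nonneg_right (pow_le_pow_left₀ (norm_nonneg _) (hS _) 2) (by positivity)
  have h4 : ∑ k ∈ J, ‖κ (-k)‖ ^ 2 ≤ 2 * N + 1 := by
    have h5 : ∀ k ∈ J, ‖κ (-k)‖ ^ 2 ≤ 1 := fun k _ => pow_le_one₀ (norm_nonneg _) (hκ _)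
    refine (sum_le_sum h5).trans ?_
    rw [sum_const, nsmul_eq_mul, mul_one, hJ, Int.card_Icc]
    have h6 : ((N : ℤ) + 1 - -(N : ℤ)).toNat = 2 * N + 1 := by omega
    rw [h6]
    push_cast
    linarith
  have h7 : ∑ k ∈ K, ‖G k‖ ^ 2 ≤ S ^ 2 * (2 * N + 1) := by
    have h8 : (Q : ℝ) * ∑ k ∈ K, ‖G k‖ ^ 2 ≤ Q * (S ^ 2 * (2 * N + 1)) := by
      refine h3.trans ?_
      have : S ^ 2 * (Q * ∑ k ∈ J, ‖κ (-k)‖ ^ 2) = Q * (S ^ 2 * ∑ k ∈ J, ‖κ (-k)‖ ^ 2) := by ring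
      rw [this]
      gcongr
    exact le_of_mul_le_mul_left h8 hQr
  refine le_trans ?_ h7
  have h9 : ∀ x ∈ Icc 1 N, ‖∑ y ∈ Icc 1 N, E y * κ ((y : ℤ) - x)‖ ^ 2 = ‖G (x : ℤ)‖ ^ 2 := by
    intro x hx
    rw [mem_Icc] at hx
    congr 2
    rw [hG]
    refine sum_congr rfl fun y hy => ?_
    rw [mem_Icc] at hy
    rw [if_pos (by rw [hJ, mem_Icc]; constructor <;> omega), neg_sub]
  rw [sum_congr rfl h9]
  have h10 : ∑ x ∈ Icc 1 N, ‖G (x : ℤ)‖ ^ 2 = ∑ x ∈ (Icc 1 N).image (fun x : ℕ => (x : ℤ)), ‖G x‖ ^ 2 := by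
    rw [sum_image]
    intro a _ b _ h
    exact Int.natCast_inj.1 h
  rw [h10]
  refine sum_le_sum_of_subset_of_nonneg ?_ fun _ _ _ => by positivity
  intro x hx
  rw [mem_image] at hx
  obtain ⟨y, hy, rfl⟩ := hx
  rw [mem_Icc] at hy
  rw [hK, mem_Icc]
  constructor <;> omega

end Pool.Agent.E8helper97.GB
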