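import Pool.Agent.E8helper66.GB.Stm
import Pool.Agent.E8helper97.GB.Pars
import Pool.Agent.H398R2.BV1

set_option autoImplicit false

/-! GB-7: constant frequency. -/

namespace Pool.Agent.E8helper97.GB

open Finset
open Pool.Agent.H807R2.Dav (ee norm_ee ee_add ee_int ee_pow)
open Pool.Agent.E8helper66.GB (nn SupLe FF BB S_CST)

lemma FF_const (N : ℕ) (E : ℕ → ℂ) (κ : ℤ → ℂ) (β : ℝ) (x : ℕ) :
    ‖FF N E κ (fun _ => β) x‖ = ‖∑ y ∈ Icc 1 N, E y * κ ((y : ℤ) - x)‖ := by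
  unfold FF
  have h1 : ∑ y ∈ Icc 1 N, E y * (κ ((y : ℤ) - x) * ee (β * x)) =
      (∑ y ∈ Icc 1 N, E y * κ ((y : ℤ) - x)) * ee (β * x) := by
    rw [sum_mul]
    exact sum_congr rfl fun y _ => by ring
  rw [h1, norm_mul, norm_ee, mul_one]

/-- Cauchy-Schwarz for the bilinear sum -/
lemma BB_cs (M L X X' : ℕ) (a b F : ℕ → ℂ) :
    ‖BB M L X X' a b F‖ ^ 2 ≤ (∑ m ∈ Ioc M (2 * M), ‖a m‖ ^ 2) * (∑ l ∈ Ioc L (2 * L), ‖b l‖ ^ 2) *
      ∑ m ∈ Ioc M (2 * M), ∑ l ∈ Ioc L (2 * L), (if X < m * l ∧ m * l ≤ X' then ‖F (m * l)‖ ^ 2 else 0) := by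
  obtain ⟨c, hc⟩ : ∃ c : ℕ → ℕ → ℝ, c = fun m l =>
      if X < m * l ∧ m * l ≤ X' then ‖F (m * l)‖ else 0 := ⟨_, rfl⟩
  have h1 : ‖BB M L X X' a b F‖ ≤ ∑ p ∈ Ioc M (2 * M) ×ˢ Ioc L (2 * L), (‖a p.1‖ * ‖b p.2‖) * c p.1 p.2 := by
    unfold BB
    rw [sum_product]
    refine (norm_sum_le _ _).trans (sum_le_sum fun m _ => (norm_sum_le _ _).trans (sum_le_sum fun l _ => ?_))
    rw [norm_mul, norm_mul, hc]
    simp only
    split_ifs <;> simp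
  have h2 := sum_mul_sq_le_sq_mul_sq (Ioc M (2 * M) ×ˢ Ioc L (2 * L))
    (fun p => ‖a p.1‖ * ‖b p.2‖) (fun p => c p.1 p.2)
  refine (pow_le_pow_left₀ (norm_nonneg _) h1 2).trans (h2.trans (le_of_eq ?_))
  have e1 : ∑ p ∈ Ioc M (2 * M) ×ˢ Ioc L (2 * L), (‖a p.1‖ * ‖b p.2‖) ^ 2 =
      (∑ m ∈ Ioc M (2 * M), ‖a m‖ ^ 2) * ∑ l ∈ Ioc L (2 * L), ‖b l‖ ^ 2 := by
    rw [sum_mul_sum, sum_product]
    exact sum_congr rfl fun m _ => sum_congr rfl fun l _ => mul_pow _ _ _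
  rw [e1, sum_product]
  congr 1
  refine sum_congr rfl fun m _ => sum_congr rfl fun l _ => ?_
  rw [hc]
  simp only
  split_ifs <;> simp

lemma box_le_tau (N M L X X' : ℕ) (hX' : X' ≤ N) (f : ℕ → ℝ) (hf : ∀ x, 0 ≤ f x) :
    ∑ m ∈ Ioc M (2 * M), ∑ l ∈ Ioc L (2 * L), (if X < m * l ∧ m * l ≤ X' then f (m * l) else 0) ≤
      ∑ x ∈ Icc 1 N, (x.divisors.card : ℝ) * f x := by
  obtain ⟨s, hs⟩ : ∃ s : Finset (ℕ × ℕ), s = (Ioc M (2 * M) ×ˢ Ioc L (2 * L)).filter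
      (fun p => X < p.1 * p.2 ∧ p.1 * p.2 ≤ X') := ⟨_, rfl⟩
  have h1 : ∑ m ∈ Ioc M (2 * M), ∑ l ∈ Ioc L (2 * L), (if X < m * l ∧ m * l ≤ X' then f (m * l) else 0) =
      ∑ p ∈ s, f (p.1 * p.2) := by
    rw [hs, sum_filter, sum_product]
  rw [h1]
  have hmaps : ∀ p ∈ s, p.1 * p.2 ∈ Icc 1 N := by
    intro p hp
    rw [hs, mem_filter, mem_product, mem_Ioc, mem_Ioc] at hp
    rw [mem_Icc]
    obtain ⟨⟨⟨h1, _⟩, h2, _⟩, _, h3⟩ := hp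
    exact ⟨Nat.mul_pos (by omega) (by omega), h3.trans hX'⟩
  rw [← sum_fiberwise_of_maps_to hmaps]
  refine sum_le_sum fun x hx => ?_
  have h2 : ∑ p ∈ s.filter (fun p => p.1 * p.2 = x), f (p.1 * p.2) =
      ((s.filter (fun p => p.1 * p.2 = x)).card : ℝ) * f x := by
    rw [← nsmul_eq_mul, ← sum_const]
    refine sum_congr rfl fun p hp => ?_
    rw [(mem_filter.1 hp).2]
  rw [h2]
  refine mul_le_mul_of_nonneg_right ?_ (hf x)
  norm_cast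
  rw [mem_Icc] at hx
  refine card_le_card_of_injOn (fun p => p.1) ?_ ?_
  · intro p hp
    have h3 := (mem_filter.1 (mem_coe.1 hp)).2
    rw [mem_coe, Nat.mem_divisors]
    exact ⟨⟨p.2, h3.symm⟩, by omega⟩
  · intro p hp q hq hpq
    have h3 := (mem_filter.1 (mem_coe.1 hp)).2
    have h4 := (mem_filter.1 (mem_coe.1 hq)).2
    simp only at hpq
    have h5 : 0 < p.1 := by
      by_contra h0
      have : p.1 = 0 := by omega
      rw [this, zero_mul] at h3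
      omega
    have h6 : p.2 = q.2 := by
      rw [hpq] at h3 h5
      exact Nat.eq_of_mul_eq_mul_left h5 (h3.trans h4.symm)
    exact Prod.ext hpq h6

/-- the mean square with the divisor function of a correlation -/
lemma corr_tau {T T₁ : ℝ} {N : ℕ} {E : ℕ → ℂ} {κ : ℤ → ℂ} (hT : 2 ≤ T) (hT₁ : 1 ≤ T₁)
    (hlog : Real.log N ≤ T) (hN : 1 ≤ N) (hE : ∀ y ∈ Icc 1 N, ‖E y‖ ≤ T)
    (hS : SupLe N E (N / T₁)) (hκ : ∀ h, ‖κ h‖ ≤ 1) :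
    ∑ x ∈ Icc 1 N, (x.divisors.card : ℝ) * ‖∑ y ∈ Icc 1 N, E y * κ ((y : ℤ) - x)‖ ^ 2 ≤
      (N : ℝ) ^ 3 * T ^ 5 / T₁ := by
  obtain ⟨g, hg⟩ : ∃ g : ℕ → ℝ, g = fun x : ℕ => ‖∑ y ∈ Icc 1 N, E y * κ ((y : ℤ) - x)‖ := ⟨_, rfl⟩
  have hNr : (1 : ℝ) ≤ N := by exact_mod_cast hN
  have hg0 : ∀ x, 0 ≤ g x := fun x => by rw [hg]; exact norm_nonneg _
  have hgN : ∀ x, g x ≤ N * T := by
    intro x
    rw [hg]
    simp only
    refine (norm_sum_le _ _).trans ?_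
    have h1 : ∀ y ∈ Icc 1 N, ‖E y * κ ((y : ℤ) - x)‖ ≤ T := by
      intro y hy
      rw [norm_mul]
      have := mul_le_mul (hE y hy) (hκ ((y : ℤ) - x)) (norm_nonneg _) (by linarith : (0 : ℝ) ≤ T)
      linarith
    refine (sum_le_sum h1).trans (le_of_eq ?_)
    rw [sum_const, Nat.card_Icc, nsmul_eq_mul]
    simp
  have hpar := corr_l2 N E κ (N / T₁) hS hκ
  have htau := Pool.Agent.H398R2.BV.sum_card_div_sq N
  have hT0 : 0 < T := by linarith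
  have hT₁0 : 0 < T₁ := by linarith
  have hl0 : 0 ≤ Real.log N := Real.log_nonneg hNr
  have h1 : (∑ x ∈ Icc 1 N, (x.divisors.card : ℝ) * g x ^ 2) ^ 2 ≤
      (∑ x ∈ Icc 1 N, (x.divisors.card : ℝ) ^ 2) * ∑ x ∈ Icc 1 N, (g x ^ 2) ^ 2 :=
    sum_mul_sq_le_sq_mul_sq _ _ _
  have h2 : ∑ x ∈ Icc 1 N, (g x ^ 2) ^ 2 ≤ (N * T) ^ 2 * ((N / T₁) ^ 2 * (2 * N + 1)) := by
    have h3 : ∀ x ∈ Icc 1 N, (g x ^ 2) ^ 2 ≤ (N * T) ^ 2 * g x ^ 2 := by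
      intro x _
      rw [pow_two (g x ^ 2)]
      exact mul_le_mul_of_nonneg_right (pow_le_pow_left₀ (hg0 x) (hgN x) 2) (by positivity)
    refine (sum_le_sum h3).trans ?_
    rw [← mul_sum]
    refine mul_le_mul_of_nonneg_left ?_ (by positivity)
    rw [hg]
    exact hpar
  have hL : 1 + Real.log N ≤ T ^ 2 := by nlinarith
  have h4 : (∑ x ∈ Icc 1 N, (x.divisors.card : ℝ) * g x ^ 2) ^ 2 ≤ ((N : ℝ) ^ 3 * T ^ 5 / T₁) ^ 2 := by
    calc _ ≤ (N * (1 + Real.log N) ^ 3) * ((N * T) ^ 2 * ((N / T₁) ^ 2 * (2 * N + 1))) :=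
          h1.trans (mul_le_mul htau h2 (sum_nonneg fun x _ => by positivity) (by positivity))
      _ ≤ (N * (T ^ 2) ^ 3) * ((N * T) ^ 2 * ((N / T₁) ^ 2 * (N * T ^ 2))) := by
          have h5 : 2 * (N : ℝ) + 1 ≤ N * T ^ 2 := by
            have h6 : (4 : ℝ) ≤ T ^ 2 := by nlinarith
            have h7 : (N : ℝ) * 4 ≤ N * T ^ 2 := mul_le_mul_of_nonneg_left h6 (by linarith)
            linarith
          gcongr
      _ = ((N : ℝ) ^ 3 * T ^ 5 / T₁) ^ 2 := by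
          field_simp
  have h6 := le_of_sq_le_sq h4 (by positivity : (0 : ℝ) ≤ (N : ℝ) ^ 3 * T ^ 5 / T₁)
  rw [hg] at h6
  exact h6

theorem t_CST : S_CST := by
  refine ⟨5, fun T T₁ N M L X X' E κ β a b A B hT hT₁ hlog hN hM hL hML hX' hE hS hκ hA hB ha hb => ?_⟩
  have hNr : (1 : ℝ) ≤ N := by exact_mod_cast hN
  have h1 := BB_cs M L X X' a b (FF N E κ (fun _ => β))
  have h2 := box_le_tau N M L X X' hX'
    (fun x => ‖∑ y ∈ Icc 1 N, E y * κ ((y : ℤ) - x)‖ ^ 2) (fun x => by positivity)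
  have h3 := corr_tau hT hT₁ hlog hN hE hS hκ
  simp only [FF_const] at h1
  have hMLr : (M : ℝ) * L ≤ N := by exact_mod_cast hML
  have hT0 : 0 < T := by linarith
  have hT₁0 : 0 < T₁ := by linarith
  have h4 : 0 ≤ (N : ℝ) ^ 3 * T ^ 5 / T₁ := by positivity
  refine h1.trans ?_
  calc _ ≤ (A * M) * (B * L) * ((N : ℝ) ^ 3 * T ^ 5 / T₁) := by
        refine mul_le_mul (mul_le_mul ha hb (sum_nonneg fun x _ => by positivity) (by positivity))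
          (h2.trans h3) ?_ (by positivity)
        exact sum_nonneg fun m _ => sum_nonneg fun l _ => by split_ifs <;> positivity
    _ = A * B * (M * L) * ((N : ℝ) ^ 3 * T ^ 5 / T₁) := by ring
    _ ≤ A * B * N * ((N : ℝ) ^ 3 * T ^ 5 / T₁) := by gcongr
    _ = _ := by ring

end Pool.Agent.E8helper97.GB
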