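import Pool.Agent.E8helper97.GB.TI

set_option autoImplicit false

/-! GB-9: the linear estimate for small divisors, end of the proof. -/

namespace Pool.Agent.E8helper97.GB

open Finset
open Pool.Agent.H807R2.Dav (ee norm_ee ee_add ee_int ee_pow ee_zero ee_add_int dd dd_nonneg dd_neg
  dd_add_int dd_le dd_ge)
open Pool.Agent.E8helper66.GB (nn SupLe FF BB S_PIG S_TI)

lemma card_JJ (N : ℕ) : ((JJ N).card : ℝ) = 2 * N + 1 := by
  unfold JJ
  rw [Int.card_Icc]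
  have h6 : ((N : ℤ) + 1 - -(N : ℤ)).toNat = 2 * N + 1 := by omega
  rw [h6]
  push_cast
  ring

lemma mem_JJ {N : ℕ} {h : ℤ} : h ∈ JJ N ↔ |h| ≤ N := by
  unfold JJ
  rw [mem_Icc, abs_le]

/-- the linear sum with a constant frequency -/
lemma lin_const {N d u v : ℕ} {S : ℝ} (E : ℕ → ℂ) (κ : ℤ → ℂ) (β : ℝ) (hd : 1 ≤ d) (hdv : d * v ≤ N)
    (hS : SupLe N E S) (hκ : ∀ h, ‖κ h‖ ≤ 1) :
    ‖∑ l ∈ Ioc u v, FF N E κ (fun _ => β) (d * l)‖ ^ 2 ≤ v * (S ^ 2 * (2 * N + 1)) := by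
  have h1 := corr_l2 N E κ S hS hκ
  have h2 : ‖∑ l ∈ Ioc u v, FF N E κ (fun _ => β) (d * l)‖ ^ 2 ≤
      (∑ l ∈ Ioc u v, ‖FF N E κ (fun _ => β) (d * l)‖) ^ 2 :=
    pow_le_pow_left₀ (norm_nonneg _) (norm_sum_le _ _) 2
  have h3 : (∑ l ∈ Ioc u v, ‖FF N E κ (fun _ => β) (d * l)‖) ^ 2 ≤
      ((Ioc u v).card : ℝ) * ∑ l ∈ Ioc u v, ‖FF N E κ (fun _ => β) (d * l)‖ ^ 2 :=
    sq_sum_le_card_mul_sum_sq
  have h4 : ((Ioc u v).card : ℝ) ≤ v := by
    rw [Nat.card_Ioc]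
    exact_mod_cast Nat.sub_le v u
  have h5 : ∑ l ∈ Ioc u v, ‖FF N E κ (fun _ => β) (d * l)‖ ^ 2 ≤
      ∑ x ∈ Icc 1 N, ‖∑ y ∈ Icc 1 N, E y * κ ((y : ℤ) - x)‖ ^ 2 := by
    have h6 : ∑ l ∈ Ioc u v, ‖FF N E κ (fun _ => β) (d * l)‖ ^ 2 =
        ∑ x ∈ (Ioc u v).image (fun l => d * l), ‖FF N E κ (fun _ => β) x‖ ^ 2 := by
      rw [sum_image]
      intro a _ b _ hab
      exact Nat.eq_of_mul_eq_mul_left (by omega) hab
    rw [h6]
    simp only [FF_const]
    refine sum_le_sum_of_subset_of_nonneg ?_ fun _ _ _ => by positivity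
    intro x hx
    rw [mem_image] at hx
    obtain ⟨l, hl, rfl⟩ := hx
    rw [mem_Ioc] at hl
    rw [mem_Icc]
    exact ⟨Nat.mul_pos (by omega) (by omega), (Nat.mul_le_mul_left d hl.2).trans hdv⟩
  refine h2.trans (h3.trans ?_)
  exact mul_le_mul h4 (h5.trans h1) (sum_nonneg fun _ _ => by positivity) (Nat.cast_nonneg _)

/-- change of the frequency -/
lemma ZZ_diff {N d u v : ℕ} {T δ : ℝ} (E : ℕ → ℂ) (t β : ℝ) (h : ℤ) (hT : 0 ≤ T) (hdv : d * v ≤ N)
    (hE : ∀ y ∈ Icc 1 N, ‖E y‖ ≤ T) (hδ : nn (t - β) ≤ δ) :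
    ‖ZZ N d u v E t h - ZZ N d u v E β h‖ ≤ v * (T * (7 * (N * δ))) := by
  have hδ0 : 0 ≤ δ := (nn_nonneg _).trans hδ
  unfold ZZ
  rw [← sum_sub_distrib]
  refine (norm_sum_le _ _).trans ?_
  have h1 : ∀ l ∈ Ioc u v, ‖(if h + (d * l : ℕ) ∈ YY N then E (h + (d * l : ℕ)).toNat * ee (t * (d * l : ℕ)) else 0) -
      (if h + (d * l : ℕ) ∈ YY N then E (h + (d * l : ℕ)).toNat * ee (β * (d * l : ℕ)) else 0)‖ ≤
      T * (7 * (N * δ)) := by
    intro l hl
    rw [mem_Ioc] at hl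
    by_cases hY : h + (d * l : ℕ) ∈ YY N
    · rw [if_pos hY, if_pos hY, ← mul_sub, norm_mul]
      have h2 : ‖E (h + (d * l : ℕ)).toNat‖ ≤ T := by
        apply hE
        unfold YY at hY
        rw [mem_Icc] at *
        omega
      have h3 : ‖ee (t * (d * l : ℕ)) - ee (β * (d * l : ℕ))‖ ≤ 7 * (N * δ) := by
        have h4 : ee (t * (d * l : ℕ)) = ee (β * (d * l : ℕ)) * ee ((d * l : ℕ) * (t - β)) := by
          rw [← ee_add]
          congr 1
          ring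
        rw [h4]
        have h5 : ee (β * (d * l : ℕ)) * ee ((d * l : ℕ) * (t - β)) - ee (β * (d * l : ℕ)) =
            -(ee (β * (d * l : ℕ)) * (1 - ee ((d * l : ℕ) * (t - β)))) := by ring
        rw [h5, norm_neg, norm_mul, norm_ee, one_mul]
        have h6 := dd_le_nn ((d * l : ℕ) * (t - β))
        have h7 := nn_nat_mul (d * l) (t - β)
        have h8 : ((d * l : ℕ) : ℝ) ≤ N := by
          exact_mod_cast (Nat.mul_le_mul_left d hl.2).trans hdv
        have h9 : nn ((d * l : ℕ) * (t - β)) ≤ N * δ :=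
          h7.trans (mul_le_mul h8 hδ (nn_nonneg _) (Nat.cast_nonneg _))
        have h10 : 2 * Real.pi ≤ 7 := by
          have := Real.pi_lt_d2
          linarith
        unfold dd at h6
        refine h6.trans ?_
        exact mul_le_mul h10 h9 (nn_nonneg _) (by norm_num)
      exact mul_le_mul h2 h3 (norm_nonneg _) hT
    · rw [if_neg hY, if_neg hY, sub_zero, norm_zero]
      positivity
  refine (sum_le_sum h1).trans ?_
  rw [sum_const, Nat.card_Ioc, nsmul_eq_mul]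
  refine mul_le_mul_of_nonneg_right ?_ (by positivity)
  exact_mod_cast Nat.sub_le v u

theorem t_TI (hP : S_PIG) : S_TI := by
  obtain ⟨C', hP⟩ := hP
  refine ⟨10 * C' + 15, fun T N d u v E κ θ hT hTN hd hdT hdv hE hS hκ => ?_⟩
  by_contra hcon
  rw [not_le] at hcon
  have hT0 : 0 < T := by linarith
  have hT1 : 1 ≤ T := by linarith
  have hN1 : (1 : ℝ) ≤ N := (one_le_pow₀ hT1).trans hTN
  have hN0 : (0 : ℝ) < N := by linarith
  have hN : 1 ≤ N := by exact_mod_cast hN1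
  have huv : u < v := by
    by_contra h
    rw [Ioc_eq_empty (by omega), sum_empty, norm_zero] at hcon
    have : (0 : ℝ) ≤ (N : ℝ) ^ 2 / T := by positivity
    linarith
  have hvN : v ≤ N := (Nat.le_mul_of_pos_left v hd).trans hdv
  have hvr : (v : ℝ) ≤ N := by exact_mod_cast hvN
  have hv1 : (1 : ℝ) ≤ v := by
    have : 1 ≤ v := by omega
    exact_mod_cast this
  -- large coefficients
  obtain ⟨H, hH⟩ : ∃ H : Finset ℤ, H = (JJ N).filter
    (fun h => (N : ℝ) / (6 * T) ≤ ‖ZZ N d u v E (θ h) h‖) := ⟨_, rfl⟩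
  obtain ⟨κ₁, hκ₁⟩ : ∃ κ₁ : ℤ → ℂ, κ₁ = fun h => if h ∈ H then κ h else 0 := ⟨_, rfl⟩
  have hκ₁n : ∀ h, ‖κ₁ h‖ ≤ 1 := by
    intro h
    rw [hκ₁]
    simp only
    split_ifs
    · exact hκ h
    · simp
  have hbig : (N : ℝ) ^ 2 / (2 * T) < ‖∑ l ∈ Ioc u v, FF N E κ₁ θ (d * l)‖ := by
    rw [sum_FF E κ θ hd hdv] at hcon
    rw [sum_FF E κ₁ θ hd hdv]
    have h1 : ∑ h ∈ JJ N, κ h * ZZ N d u v E (θ h) h = ∑ h ∈ JJ N, κ₁ h * ZZ N d u v E (θ h) h +
        ∑ h ∈ JJ N, (if h ∈ H then 0 else κ h * ZZ N d u v E (θ h) h) := by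
      rw [← sum_add_distrib]
      refine sum_congr rfl fun h _ => ?_
      rw [hκ₁]
      simp only
      split_ifs <;> ring
    have h2 : ‖∑ h ∈ JJ N, (if h ∈ H then 0 else κ h * ZZ N d u v E (θ h) h)‖ ≤
        (N : ℝ) ^ 2 / (2 * T) := by
      refine (norm_sum_le _ _).trans ?_
      have h3 : ∀ h ∈ JJ N, ‖(if h ∈ H then 0 else κ h * ZZ N d u v E (θ h) h)‖ ≤ (N : ℝ) / (6 * T) := by
        intro h hh
        split_ifs with hhH
        · rw [norm_zero]; positivity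
        · have h4 : ‖ZZ N d u v E (θ h) h‖ < (N : ℝ) / (6 * T) := by
            by_contra h5
            rw [not_lt] at h5
            exact hhH (by rw [hH, mem_filter]; exact ⟨hh, h5⟩)
          rw [norm_mul]
          have := mul_le_mul (hκ h) h4.le (norm_nonneg _) zero_le_one
          linarith
      refine (sum_le_sum h3).trans ?_
      rw [sum_const, nsmul_eq_mul, card_JJ]
      calc (2 * (N : ℝ) + 1) * (N / (6 * T)) ≤ (3 * N) * (N / (6 * T)) := by gcongr; linarith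
        _ = (N : ℝ) ^ 2 / (2 * T) := by field_simp; ring
    rw [h1] at hcon
    have h3 := norm_add_le (∑ h ∈ JJ N, κ₁ h * ZZ N d u v E (θ h) h)
      (∑ h ∈ JJ N, (if h ∈ H then 0 else κ h * ZZ N d u v E (θ h) h))
    have h4 : (N : ℝ) ^ 2 / T = (N : ℝ) ^ 2 / (2 * T) + (N : ℝ) ^ 2 / (2 * T) := by
      field_simp; ring
    rw [h4] at hcon
    linarith
  -- second moment
  have hSig : (N : ℝ) ^ 3 / (4 * T ^ 4) < Sig N d u v κ₁ θ := by
    have h1 := cs_y (u := u) (v := v) (d := d) E κ₁ θ hE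
    have h2 : ((N : ℝ) ^ 2 / (2 * T)) ^ 2 < ‖∑ l ∈ Ioc u v, FF N E κ₁ θ (d * l)‖ ^ 2 :=
      pow_lt_pow_left₀ hbig (by positivity) (by norm_num)
    have h3 := h2.trans_le h1
    have h4 : ((N : ℝ) ^ 2 / (2 * T)) ^ 2 = (N * T ^ 2) * ((N : ℝ) ^ 3 / (4 * T ^ 4)) := by
      field_simp; ring
    rw [h4] at h3
    exact lt_of_mul_lt_mul_left h3 (by positivity)
  obtain ⟨γ, hγ⟩ : ∃ γ : ℤ × ℤ → ℝ, γ = fun p => d * (θ p.1 - θ (p.1 + d * p.2)) := ⟨_, rfl⟩
  obtain ⟨Act, hAct⟩ : ∃ Act : Finset (ℤ × ℤ), Act = (JJ N ×ˢ JJ v).filter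
    (fun p => p.1 ∈ H ∧ p.1 + (d : ℤ) * p.2 ∈ H) := ⟨_, rfl⟩
  have hSle : Sig N d u v κ₁ θ ≤ ∑ p ∈ Act, ‖∑ l ∈ II N d u v p.1 p.2, ee ((l : ℝ) * γ p)‖ := by
    have h1 : Sig N d u v κ₁ θ ≤ ‖((Sig N d u v κ₁ θ : ℝ) : ℂ)‖ := by
      rw [Complex.norm_real]
      exact le_abs_self _
    rw [Sig_eq κ₁ θ hdv] at h1
    refine h1.trans ?_
    rw [hAct, sum_filter, sum_product]
    refine (norm_sum_le _ _).trans (sum_le_sum fun h _ => (norm_sum_le _ _).trans (sum_le_sum fun k _ => ?_))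
    rw [norm_mul, norm_mul, norm_mul, norm_ee, mul_one, RCLike.norm_conj]
    simp only
    by_cases hh : h ∈ H ∧ h + d * k ∈ H
    · rw [if_pos hh, hγ]
      simp only
      have h2 : ‖κ₁ h‖ * ‖κ₁ (h + d * k)‖ ≤ 1 :=
        mul_le_one₀ (hκ₁n _) (norm_nonneg _) (hκ₁n _)
      have h3 := mul_le_mul_of_nonneg_right h2 (norm_nonneg
        (∑ l ∈ II N d u v h k, ee ((l : ℝ) * (d * (θ h - θ (h + d * k))))))
      rw [one_mul] at h3
      exact h3
    · rw [if_neg hh]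
      have h2 : ‖κ₁ h‖ * ‖κ₁ (h + d * k)‖ = 0 := by
        rw [hκ₁]
        simp only
        by_cases h3 : h ∈ H
        · have h4 : h + d * k ∉ H := fun h5 => hh ⟨h3, h5⟩
          rw [if_neg h4, norm_zero, mul_zero]
        · rw [if_neg h3, norm_zero, zero_mul]
      rw [h2, zero_mul]
  have hActc : (Act.card : ℝ) ≤ 9 * N ^ 2 := by
    have h1 : (Act.card : ℝ) ≤ ((JJ N ×ˢ JJ v).card : ℝ) := by
      rw [hAct]
      exact_mod_cast card_filter_le _ _
    refine h1.trans ?_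
    rw [card_product, Nat.cast_mul, card_JJ, card_JJ]
    nlinarith
  obtain ⟨G, hG⟩ : ∃ G : Finset (ℤ × ℤ), G = Act.filter (fun p => nn (γ p) ≤ T ^ 10 / N) := ⟨_, rfl⟩
  have hGc : (N : ℝ) ^ 2 / T ^ 10 ≤ G.card := by
    have h1 : ∑ p ∈ Act, ‖∑ l ∈ II N d u v p.1 p.2, ee ((l : ℝ) * γ p)‖ ≤
        G.card * N + (9 * N ^ 2) * (N / (2 * T ^ 10)) := by
      rw [← sum_filter_add_sum_filter_not Act (fun p => nn (γ p) ≤ T ^ 10 / N)]
      refine add_le_add ?_ ?_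
      · rw [← hG]
        have h2 : ∀ p ∈ G, ‖∑ l ∈ II N d u v p.1 p.2, ee ((l : ℝ) * γ p)‖ ≤ N := by
          intro p _
          refine (norm_sum_le _ _).trans ?_
          simp only [norm_ee, sum_const, nsmul_eq_mul, mul_one]
          refine le_trans ?_ hvr
          exact_mod_cast II_card N d u v p.1 p.2
        refine (sum_le_sum h2).trans (le_of_eq ?_)
        rw [sum_const, nsmul_eq_mul]
      · have h2 : ∀ p ∈ Act.filter (fun p => ¬ nn (γ p) ≤ T ^ 10 / N),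
            ‖∑ l ∈ II N d u v p.1 p.2, ee ((l : ℝ) * γ p)‖ ≤ N / (2 * T ^ 10) := by
          intro p hp
          have h3 := (mem_filter.1 hp).2
          rw [not_le] at h3
          have h4 := geo_conv _ (II_conv N d u v p.1 p.2) (γ p)
          have h5 : 2 * (T ^ 10 / N) * ‖∑ l ∈ II N d u v p.1 p.2, ee ((l : ℝ) * γ p)‖ ≤ 1 := by
            refine le_trans ?_ h4
            have := norm_nonneg (∑ l ∈ II N d u v p.1 p.2, ee ((l : ℝ) * γ p))
            gcongr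
          have h6 : 2 * (T ^ 10 / (N : ℝ)) = (2 * T ^ 10) / N := by ring
          rw [h6, div_mul_eq_mul_div, div_le_one hN0] at h5
          rw [le_div_iff₀ (by positivity)]
          linarith
        refine (sum_le_sum h2).trans ?_
        rw [sum_const, nsmul_eq_mul]
        refine mul_le_mul_of_nonneg_right ?_ (by positivity)
        refine le_trans ?_ hActc
        exact_mod_cast card_filter_le _ _
    have h2 : (9 * (N : ℝ) ^ 2) * (N / (2 * T ^ 10)) ≤ (N : ℝ) ^ 3 / (8 * T ^ 4) := by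
      have h3 : (64 : ℝ) ≤ T ^ 6 := by
        have := pow_le_pow_left₀ (by norm_num : (0 : ℝ) ≤ 2) hT 6
        norm_num at this
        exact this
      rw [mul_div_assoc', div_le_div_iff₀ (by positivity) (by positivity)]
      have h4 : 9 * (N : ℝ) ^ 2 * N * (8 * T ^ 4) = (N ^ 3 * T ^ 4) * 72 := by ring
      have h5 : (N : ℝ) ^ 3 * (2 * T ^ 10) = (N ^ 3 * T ^ 4) * (2 * T ^ 6) := by ring
      rw [h4, h5]
      exact mul_le_mul_of_nonneg_left (by linarith) (by positivity)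
    have h3 : (N : ℝ) ^ 3 / (4 * T ^ 4) = (N : ℝ) ^ 3 / (8 * T ^ 4) + (N : ℝ) ^ 3 / (8 * T ^ 4) := by
      field_simp; ring
    have h4 : (N : ℝ) ^ 3 / (8 * T ^ 4) ≤ G.card * N := by linarith
    have h5 : (N : ℝ) ^ 3 / (8 * T ^ 4) = ((N : ℝ) ^ 2 / (8 * T ^ 4)) * N := by
      field_simp
    rw [h5] at h4
    have h6 := le_of_mul_le_mul_right h4 hN0
    refine le_trans ?_ h6
    have h7 : 8 * T ^ 4 ≤ T ^ 10 := by
      have h8 : (8 : ℝ) ≤ T ^ 6 := by
        have := pow_le_pow_left₀ (by norm_num : (0 : ℝ) ≤ 2) hT 6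
        norm_num at this
        linarith
      calc 8 * T ^ 4 ≤ T ^ 6 * T ^ 4 := by gcongr
        _ = T ^ 10 := by ring
    exact div_le_div_of_nonneg_left (by positivity) (by positivity) h7
  -- the pigeonhole
  obtain ⟨P, hPd⟩ : ∃ P : Finset (ℤ × ℤ), P = G.image (fun p => (p.1, p.1 + (d : ℤ) * p.2)) := ⟨_, rfl⟩
  have hPc : P.card = G.card := by
    rw [hPd]
    apply card_image_of_injOn
    intro p _ q _ hpq
    simp only [Prod.mk.injEq] at hpq
    obtain ⟨h1, h2⟩ := hpq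
    rw [h1] at h2
    have h3 : (d : ℤ) * p.2 = d * q.2 := by linarith
    have h4 : (d : ℤ) ≠ 0 := by exact_mod_cast (by omega : d ≠ 0)
    exact Prod.ext h1 (mul_left_cancel₀ h4 h3)
  have hPm : ∀ p ∈ P, p.1 ∈ H ∧ p.2 ∈ H ∧ nn (d * (θ p.1 - θ p.2)) ≤ T ^ 10 / N := by
    intro p hp
    rw [hPd, mem_image] at hp
    obtain ⟨g, hg, rfl⟩ := hp
    rw [hG, mem_filter, hAct, mem_filter] at hg
    refine ⟨hg.1.2.1, hg.1.2.2, ?_⟩
    have := hg.2
    rw [hγ] at this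
    exact this
  have hHJ : ∀ h ∈ H, |h| ≤ N := by
    intro h hh
    rw [hH, mem_filter] at hh
    exact mem_JJ.1 hh.1
  obtain ⟨β, Hs, hHsc, hHs⟩ := hP (T ^ 10) (100 * T ^ 2) N θ P
    (by
      have := pow_le_pow_right₀ hT1 (show 1 ≤ 10 by norm_num)
      rw [pow_one] at this
      linarith) (by nlinarith) hN (by rw [hPc]; exact hGc)
    (fun p hp => ⟨hHJ _ (hPm p hp).1, hHJ _ (hPm p hp).2.1, d, hd, by
      have := pow_le_pow_right₀ hT1 (show 1 ≤ 10 by norm_num)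
      rw [pow_one] at this
      linarith, (hPm p hp).2.2⟩)
  have hHsH : ∀ h ∈ Hs, h ∈ H := by
    intro h hh
    obtain ⟨⟨p, hp, rfl⟩, _⟩ := hHs h hh
    exact (hPm p hp).2.1
  have hZs : ∀ h ∈ Hs, (N : ℝ) / (12 * T) ≤ ‖ZZ N d u v E β h‖ := by
    intro h hh
    have h1 := hHsH h hh
    rw [hH, mem_filter] at h1
    have h2 := ZZ_diff (u := u) E (θ h) β h hT0.le hdv hE (hHs h hh).2
    have h3 : (v : ℝ) * (T * (7 * (N * (1 / (100 * T ^ 2 * N))))) ≤ N / (12 * T) := by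
      have h4 : (v : ℝ) * (T * (7 * (N * (1 / (100 * T ^ 2 * N))))) = v * (7 / (100 * T)) := by
        field_simp
      rw [h4]
      calc (v : ℝ) * (7 / (100 * T)) ≤ N * (7 / (100 * T)) := by gcongr
        _ ≤ N / (12 * T) := by
          rw [mul_div_assoc', div_le_div_iff₀ (by positivity) (by positivity)]
          nlinarith [mul_pos hN0 hT0]
    have h5 := norm_sub_norm_le (ZZ N d u v E (θ h) h) (ZZ N d u v E β h)
    have h6 : (N : ℝ) / (6 * T) = N / (12 * T) + N / (12 * T) := by field_simp; ring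
    have h7 := h1.2
    rw [h6] at h7
    linarith
  obtain ⟨κs, hκs⟩ : ∃ κs : ℤ → ℂ, κs = fun h => if h ∈ Hs then
    (starRingEnd ℂ) (ZZ N d u v E β h) / (‖ZZ N d u v E β h‖ : ℂ) else 0 := ⟨_, rfl⟩
  have hκsn : ∀ h, ‖κs h‖ ≤ 1 := by
    intro h
    rw [hκs]
    simp only
    split_ifs
    · rw [norm_div, RCLike.norm_conj, Complex.norm_real, norm_norm]
      exact div_self_le_one _
    · simp
  have hlow : (Hs.card : ℝ) * (N / (12 * T)) ≤ ‖∑ l ∈ Ioc u v, FF N E κs (fun _ => β) (d * l)‖ := by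
    rw [sum_FF E κs (fun _ => β) hd hdv]
    have h1 : ∑ h ∈ JJ N, κs h * ZZ N d u v E β h = ((∑ h ∈ Hs, ‖ZZ N d u v E β h‖ : ℝ) : ℂ) := by
      have h2 : Hs ⊆ JJ N := fun h hh => mem_JJ.2 (hHJ h (hHsH h hh))
      rw [← sum_subset h2 (fun h _ hh => by rw [hκs]; simp only; rw [if_neg hh, zero_mul]),
        Complex.ofReal_sum]
      refine sum_congr rfl fun h hh => ?_
      have h3 : 0 < ‖ZZ N d u v E β h‖ := lt_of_lt_of_le (by positivity) (hZs h hh)
      have h4 : (‖ZZ N d u v E β h‖ : ℂ) ≠ 0 := by exact_mod_cast h3.ne'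
      rw [hκs]
      simp only
      rw [if_pos hh, div_mul_eq_mul_div, mul_comm, Complex.mul_conj, Complex.normSq_eq_norm_sq,
        div_eq_iff h4]
      push_cast
      ring
    rw [h1, Complex.norm_real, Real.norm_eq_abs]
    refine le_trans ?_ (le_abs_self _)
    have h2 := sum_le_sum hZs
    rw [sum_const, nsmul_eq_mul] at h2
    exact h2
  have hup := lin_const (u := u) E κs β hd hdv hS hκsn
  -- comparison
  have hlow2 : (N : ℝ) ^ 2 / (1200 * T ^ (10 * C' + 3)) ≤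
      ‖∑ l ∈ Ioc u v, FF N E κs (fun _ => β) (d * l)‖ := by
    refine le_trans (le_of_eq ?_) ((mul_le_mul_of_nonneg_right hHsc (by positivity)).trans hlow)
    rw [← pow_mul]
    field_simp
    ring
  have hup2 : ‖∑ l ∈ Ioc u v, FF N E κs (fun _ => β) (d * l)‖ ^ 2 ≤
      3 * (N : ℝ) ^ 4 / (T ^ (10 * C' + 15)) ^ 2 := by
    refine hup.trans ?_
    calc (v : ℝ) * ((N / T ^ (10 * C' + 15)) ^ 2 * (2 * N + 1))
        ≤ N * ((N / T ^ (10 * C' + 15)) ^ 2 * (3 * N)) := by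
          gcongr
          linarith
      _ = 3 * (N : ℝ) ^ 4 / (T ^ (10 * C' + 15)) ^ 2 := by
          field_simp
  have h1 := (pow_le_pow_left₀ (by positivity) hlow2 2).trans hup2
  have h2 : T ^ (10 * C' + 15) = T ^ (10 * C' + 3) * T ^ 12 := by rw [← pow_add]
  rw [h2, div_pow, div_le_div_iff₀ (by positivity) (by positivity)] at h1
  have h3 : ((N : ℝ) ^ 2) ^ 2 * (T ^ (10 * C' + 3) * T ^ 12) ^ 2 =
      (N ^ 4 * (T ^ (10 * C' + 3)) ^ 2) * T ^ 24 := by ring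
  have h4 : 3 * (N : ℝ) ^ 4 * (1200 * T ^ (10 * C' + 3)) ^ 2 =
      (N ^ 4 * (T ^ (10 * C' + 3)) ^ 2) * 4320000 := by ring
  rw [h3, h4] at h1
  have h5 := le_of_mul_le_mul_left h1 (by positivity)
  have h6 := pow_le_pow_left₀ (by norm_num : (0 : ℝ) ≤ 2) hT 24
  norm_num at h6
  linarith

end Pool.Agent.E8helper97.GB
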