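import Pool.Agent.E8helper66.GB.Stm
import Pool.Agent.E8helper97.GB.CST

set_option autoImplicit false

/-! GB-9: the linear estimate for small divisors. -/

namespace Pool.Agent.E8helper97.GB

open Finset
open Pool.Agent.H807R2.Dav (ee norm_ee ee_add ee_int ee_pow ee_zero ee_add_int dd dd_nonneg dd_neg
  dd_add_int dd_le dd_ge)
open Pool.Agent.E8helper66.GB (nn SupLe FF BB S_PIG S_TI)

/-! ### the distance to the nearest integer -/

lemma nn_nonneg (x : ℝ) : 0 ≤ nn x := norm_nonneg _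

lemma nn_eq (x : ℝ) : nn x = |x - round x| := UnitAddCircle.norm_eq

lemma dd_le_nn (x : ℝ) : dd x ≤ 2 * Real.pi * nn x := by
  rw [nn_eq]
  have h := dd_le (x - round x)
  have h1 := dd_add_int x (-round x)
  have h2 : x + ((-round x : ℤ) : ℝ) = x - round x := by push_cast; ring
  rw [h2] at h1
  rw [← h1]
  exact h

lemma nn_le_dd (x : ℝ) : 4 * nn x ≤ dd x := by
  rw [nn_eq]
  have h1 := dd_add_int x (-round x)
  have h2 : x + ((-round x : ℤ) : ℝ) = x - round x := by push_cast; ring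
  rw [h2] at h1
  have h3 : |x - round x| ≤ 1 / 2 := abs_sub_round x
  have h4 : dd |x - round x| = dd (x - round x) := by
    rcases abs_choice (x - round x) with h | h
    · rw [h]
    · rw [h, dd_neg]
  have h5 := dd_ge (abs_nonneg (x - round x)) (by linarith)
  rw [min_eq_left (by linarith), h4, h1] at h5
  exact h5

lemma nn_nat_mul (k : ℕ) (x : ℝ) : nn (k * x) ≤ k * nn x := by
  unfold nn
  have h : ((k * x : ℝ) : UnitAddCircle) = k • (x : UnitAddCircle) := by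
    rw [← AddCircle.coe_nsmul, nsmul_eq_mul]
  rw [h]
  exact norm_nsmul_le

/-! ### geometric sums -/

lemma geo_int (a : ℤ) (n : ℕ) (γ : ℝ) :
    dd γ * ‖∑ l ∈ Ico a (a + n), ee ((l : ℝ) * γ)‖ ≤ 2 := by
  have h1 : ∑ l ∈ Ico a (a + n), ee ((l : ℝ) * γ) = ee ((a : ℝ) * γ) * ∑ j ∈ range n, ee γ ^ j := by
    rw [mul_sum]
    refine sum_nbij' (fun l => (l - a).toNat) (fun j => a + j) ?_ ?_ ?_ ?_ ?_
    · intro l hl
      rw [mem_Ico] at hl
      rw [mem_range]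
      omega
    · intro j hj
      rw [mem_range] at hj
      rw [mem_Ico]
      omega
    · intro l hl
      rw [mem_Ico] at hl
      omega
    · intro j hj
      omega
    · intro l hl
      rw [mem_Ico] at hl
      rw [← ee_pow, ← ee_add]
      congr 1
      have : (((l - a).toNat : ℕ) : ℝ) = ((l - a : ℤ) : ℝ) := by
        rw [← Int.cast_natCast, Int.toNat_of_nonneg (by omega)]
      rw [this]
      push_cast
      ring
  have h2 : dd γ * ‖∑ j ∈ range n, ee γ ^ j‖ ≤ 2 := by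
    have h3 := mul_neg_geom_sum (ee γ) n
    unfold dd
    rw [← norm_mul, h3]
    refine (norm_sub_le _ _).trans ?_
    rw [norm_pow, norm_ee]
    norm_num
  rw [h1, norm_mul, norm_ee, one_mul]
  exact h2

/-- sums over a convex set -/
lemma geo_conv (I : Finset ℤ) (hI : ∀ a ∈ I, ∀ b ∈ I, ∀ c, a ≤ c → c ≤ b → c ∈ I) (γ : ℝ) :
    2 * nn γ * ‖∑ l ∈ I, ee ((l : ℝ) * γ)‖ ≤ 1 := by
  rcases I.eq_empty_or_nonempty with h | h
  · simp [h]
  · have h1 : I = Ico (I.min' h) (I.min' h + ((I.max' h + 1 - I.min' h).toNat : ℕ)) := by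
      ext c
      rw [mem_Ico]
      have h2 := I.min'_le_max' h
      constructor
      · intro hc
        have h3 := I.min'_le c hc
        have h4 := I.le_max' c hc
        omega
      · intro hc
        exact hI _ (I.min'_mem h) _ (I.max'_mem h) c hc.1 (by omega)
    rw [h1]
    have h2 := geo_int (I.min' h) (I.max' h + 1 - I.min' h).toNat γ
    have h3 := nn_le_dd γ
    have h4 := mul_le_mul_of_nonneg_right h3 (norm_nonneg
      (∑ l ∈ Ico (I.min' h) (I.min' h + ((I.max' h + 1 - I.min' h).toNat : ℕ)), ee ((l : ℝ) * γ)))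
    linarith

/-! ### changes of variables -/

lemma sum_shift (Y J : Finset ℤ) (a : ℤ) (f : ℤ → ℂ) (h : ∀ y ∈ Y, y - a ∈ J) :
    ∑ y ∈ Y, f y = ∑ x ∈ J, if x + a ∈ Y then f (x + a) else 0 := by
  rw [← sum_filter]
  refine sum_nbij' (fun y => y - a) (fun x => x + a) ?_ ?_ ?_ ?_ ?_
  · intro y hy
    rw [mem_filter]
    exact ⟨h y hy, by rwa [sub_add_cancel]⟩
  · intro x hx
    exact (mem_filter.1 hx).2
  · intro y _
    ring
  · intro x _
    ring
  · intro y _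
    rw [sub_add_cancel]

lemma sum_refl (Y J : Finset ℤ) (a : ℤ) (f : ℤ → ℂ) (h : ∀ y ∈ Y, a - y ∈ J) :
    ∑ y ∈ Y, f y = ∑ x ∈ J, if a - x ∈ Y then f (a - x) else 0 := by
  rw [← sum_filter]
  refine sum_nbij' (fun y => a - y) (fun x => a - x) ?_ ?_ ?_ ?_ ?_
  · intro y hy
    rw [mem_filter]
    exact ⟨h y hy, by rwa [sub_sub_cancel]⟩
  · intro x hx
    exact (mem_filter.1 hx).2
  · intro y _
    ring
  · intro x _
    ring
  · intro y _
    rw [sub_sub_cancel]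

/-- the integers `1, …, N` -/
noncomputable def YY (N : ℕ) : Finset ℤ := Icc 1 (N : ℤ)

/-- the integers `-N, …, N` -/
noncomputable def JJ (N : ℕ) : Finset ℤ := Icc (-(N : ℤ)) N

lemma sum_YY (N : ℕ) (f : ℤ → ℂ) : ∑ y ∈ Icc 1 N, f (y : ℤ) = ∑ y ∈ YY N, f y := by
  unfold YY
  refine sum_nbij' (fun y => (y : ℤ)) (fun y => y.toNat) ?_ ?_ ?_ ?_ ?_
  · intro y hy
    rw [mem_Icc] at *
    omega
  · intro y hy
    rw [mem_Icc] at *
    omega
  · intro y hy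
    simp
  · intro y hy
    rw [mem_Icc] at hy
    omega
  · intro y _
    rfl

lemma sum_Ioc_int (u v : ℕ) (f : ℤ → ℂ) : ∑ y ∈ Ioc u v, f (y : ℤ) = ∑ y ∈ Ioc (u : ℤ) v, f y := by
  refine sum_nbij' (fun y => (y : ℤ)) (fun y => y.toNat) ?_ ?_ ?_ ?_ ?_
  · intro y hy
    rw [mem_Ioc] at *
    omega
  · intro y hy
    rw [mem_Ioc] at *
    omega
  · intro y hy
    simp
  · intro y hy
    rw [mem_Ioc] at hy
    omega
  · intro y _
    rfl

/-- the sum over the pairs with the difference `h` -/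
noncomputable def ZZ (N d u v : ℕ) (E : ℕ → ℂ) (t : ℝ) (h : ℤ) : ℂ :=
  ∑ l ∈ Ioc u v, (if h + (d * l : ℕ) ∈ YY N then E (h + (d * l : ℕ)).toNat * ee (t * (d * l : ℕ)) else 0)

lemma FF_shift {N : ℕ} (E : ℕ → ℂ) (κ : ℤ → ℂ) (θ : ℤ → ℝ) {x : ℕ} (hx1 : 1 ≤ x) (hxN : x ≤ N) :
    FF N E κ θ x = ∑ h ∈ JJ N, κ h *
      (if h + (x : ℤ) ∈ YY N then E (h + (x : ℤ)).toNat * ee (θ h * x) else 0) := by
  unfold FF
  have h1 : ∑ y ∈ Icc 1 N, E y * (κ ((y : ℤ) - x) * ee (θ ((y : ℤ) - x) * x)) =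
      ∑ y ∈ YY N, E y.toNat * (κ (y - x) * ee (θ (y - x) * x)) := by
    rw [← sum_YY N (fun y => E y.toNat * (κ (y - x) * ee (θ (y - x) * x)))]
    refine sum_congr rfl fun y _ => ?_
    rw [Int.toNat_natCast]
  rw [h1, sum_shift (YY N) (JJ N) x]
  · refine sum_congr rfl fun h _ => ?_
    split_ifs
    · rw [add_sub_cancel_right]
      ring
    · ring
  · intro y hy
    unfold YY at hy
    unfold JJ
    rw [mem_Icc] at *
    omega

lemma sum_FF {N d u v : ℕ} (E : ℕ → ℂ) (κ : ℤ → ℂ) (θ : ℤ → ℝ) (hd : 1 ≤ d) (hdv : d * v ≤ N) :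
    ∑ l ∈ Ioc u v, FF N E κ θ (d * l) = ∑ h ∈ JJ N, κ h * ZZ N d u v E (θ h) h := by
  have h1 : ∀ l ∈ Ioc u v, FF N E κ θ (d * l) = ∑ h ∈ JJ N, κ h *
      (if h + ((d * l : ℕ) : ℤ) ∈ YY N then E (h + ((d * l : ℕ) : ℤ)).toNat * ee (θ h * (d * l : ℕ))
        else 0) := by
    intro l hl
    rw [mem_Ioc] at hl
    exact FF_shift E κ θ (Nat.mul_pos (by omega) (by omega))
      ((Nat.mul_le_mul_left d hl.2).trans hdv)
  rw [sum_congr rfl h1, sum_comm]
  refine sum_congr rfl fun h _ => ?_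
  unfold ZZ
  rw [mul_sum]

/-- the second moment -/
noncomputable def Sig (N d u v : ℕ) (κ : ℤ → ℂ) (θ : ℤ → ℝ) : ℝ :=
  ∑ y ∈ Icc 1 N, ‖∑ l ∈ Ioc u v, κ ((y : ℤ) - (d * l : ℕ)) * ee (θ ((y : ℤ) - (d * l : ℕ)) * (d * l : ℕ))‖ ^ 2

lemma cs_y {N d u v : ℕ} {T : ℝ} (E : ℕ → ℂ) (κ : ℤ → ℂ) (θ : ℤ → ℝ)
    (hE : ∀ y ∈ Icc 1 N, ‖E y‖ ≤ T) :
    ‖∑ l ∈ Ioc u v, FF N E κ θ (d * l)‖ ^ 2 ≤ N * T ^ 2 * Sig N d u v κ θ := by
  have h1 : ∑ l ∈ Ioc u v, FF N E κ θ (d * l) = ∑ y ∈ Icc 1 N, E y *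
      ∑ l ∈ Ioc u v, κ ((y : ℤ) - (d * l : ℕ)) * ee (θ ((y : ℤ) - (d * l : ℕ)) * (d * l : ℕ)) := by
    unfold FF
    rw [sum_comm]
    refine sum_congr rfl fun y _ => ?_
    rw [mul_sum]
  rw [h1]
  refine (pow_le_pow_left₀ (norm_nonneg _) (norm_sum_le _ _) 2).trans ?_
  simp only [norm_mul (E _)]
  refine (sum_mul_sq_le_sq_mul_sq _ _ _).trans ?_
  unfold Sig
  refine mul_le_mul_of_nonneg_right ?_ (sum_nonneg fun _ _ => by positivity)
  have h2 : ∀ y ∈ Icc 1 N, ‖E y‖ ^ 2 ≤ T ^ 2 := fun y hy => pow_le_pow_left₀ (norm_nonneg _) (hE y hy) 2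
  refine (sum_le_sum h2).trans (le_of_eq ?_)
  rw [sum_const, Nat.card_Icc, nsmul_eq_mul]
  simp

/-- the summation set -/
noncomputable def II (N d u v : ℕ) (h k : ℤ) : Finset ℤ :=
  (Ioc (u : ℤ) v).filter (fun l => h + d * l ∈ YY N ∧ l - k ∈ Ioc (u : ℤ) v)

lemma II_conv (N d u v : ℕ) (h k : ℤ) :
    ∀ a ∈ II N d u v h k, ∀ b ∈ II N d u v h k, ∀ c, a ≤ c → c ≤ b → c ∈ II N d u v h k := by
  intro a ha b hb c hac hcb
  unfold II YY at *
  rw [mem_filter, mem_Ioc, mem_Icc, mem_Ioc] at *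
  have h1 : (d : ℤ) * a ≤ d * c := mul_le_mul_of_nonneg_left hac (Nat.cast_nonneg _)
  have h2 : (d : ℤ) * c ≤ d * b := mul_le_mul_of_nonneg_left hcb (Nat.cast_nonneg _)
  refine ⟨⟨by omega, by omega⟩, ⟨by omega, by omega⟩, by omega, by omega⟩

lemma II_card (N d u v : ℕ) (h k : ℤ) : (II N d u v h k).card ≤ v := by
  unfold II
  refine (card_filter_le _ _).trans ?_
  rw [Int.card_Ioc]
  omega

lemma Sig_eq {N d u v : ℕ} (κ : ℤ → ℂ) (θ : ℤ → ℝ) (hdv : d * v ≤ N) :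
    ((Sig N d u v κ θ : ℝ) : ℂ) = ∑ h ∈ JJ N, ∑ k ∈ JJ v,
      (κ h * (starRingEnd ℂ) (κ (h + d * k)) * ee (θ (h + d * k) * (d * k))) *
        ∑ l ∈ II N d u v h k, ee ((l : ℝ) * (d * (θ h - θ (h + d * k)))) := by
  obtain ⟨K, hK⟩ : ∃ K : ℤ → ℤ → ℂ, K = fun l y => κ (y - d * l) * ee (θ (y - d * l) * (d * l)) := ⟨_, rfl⟩
  have h0 : ((Sig N d u v κ θ : ℝ) : ℂ) = ∑ y ∈ YY N,
      ∑ l ∈ Ioc (u : ℤ) v, ∑ l' ∈ Ioc (u : ℤ) v, K l y * (starRingEnd ℂ) (K l' y) := by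
    unfold Sig
    rw [Complex.ofReal_sum, ← sum_YY N (fun y => ∑ l ∈ Ioc (u : ℤ) v, ∑ l' ∈ Ioc (u : ℤ) v,
      K l y * (starRingEnd ℂ) (K l' y))]
    refine sum_congr rfl fun y _ => ?_
    have h1 : ∑ l ∈ Ioc u v, κ ((y : ℤ) - (d * l : ℕ)) *
        ee (θ ((y : ℤ) - (d * l : ℕ)) * (d * l : ℕ)) = ∑ l ∈ Ioc (u : ℤ) v, K l y := by
      rw [← sum_Ioc_int u v (fun l => K l y), hK]
      refine sum_congr rfl fun l _ => ?_
      push_cast
      rfl
    rw [h1, ← Complex.normSq_eq_norm_sq, ← Complex.mul_conj, map_sum, sum_mul_sum]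
  rw [h0, sum_comm]
  have h2 : ∀ l ∈ Ioc (u : ℤ) v, ∑ y ∈ YY N, ∑ l' ∈ Ioc (u : ℤ) v, K l y * (starRingEnd ℂ) (K l' y) =
      ∑ h ∈ JJ N, ∑ k ∈ JJ v, if h + d * l ∈ YY N ∧ l - k ∈ Ioc (u : ℤ) v then
        (κ h * (starRingEnd ℂ) (κ (h + d * k)) * ee (θ (h + d * k) * (d * k))) *
          ee ((l : ℝ) * (d * (θ h - θ (h + d * k)))) else 0 := by
    intro l hl
    rw [mem_Ioc] at hl
    have hdl : (d : ℤ) * l ≤ N := by
      have h3 : (d : ℤ) * l ≤ d * v := mul_le_mul_of_nonneg_left hl.2 (Nat.cast_nonneg _)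
      have h4 : (d : ℤ) * v ≤ N := by exact_mod_cast hdv
      linarith
    have hdl0 : 0 ≤ (d : ℤ) * l := mul_nonneg (Nat.cast_nonneg _) (by omega)
    rw [sum_shift (YY N) (JJ N) (d * l) _ (by
      intro y hy
      unfold YY at hy
      unfold JJ
      rw [mem_Icc] at *
      constructor <;> linarith [hy.1, hy.2])]
    refine sum_congr rfl fun h _ => ?_
    rw [sum_refl (Ioc (u : ℤ) v) (JJ v) l _ (by
      intro y hy
      unfold JJ
      rw [mem_Ioc] at hy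
      rw [mem_Icc]
      constructor <;> omega)]
    by_cases hY : h + d * l ∈ YY N
    · rw [if_pos hY]
      refine sum_congr rfl fun k _ => ?_
      by_cases hU : l - k ∈ Ioc (u : ℤ) v
      · rw [if_pos hU, if_pos ⟨hY, hU⟩, hK]
        simp only
        rw [show h + (d : ℤ) * l - d * l = h by ring,
          show h + (d : ℤ) * l - d * (l - k) = h + d * k by ring, map_mul, conj_ee]
        have h5 : ee (θ (h + d * k) * (d * k)) * ee ((l : ℝ) * (d * (θ h - θ (h + d * k)))) =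
            ee (θ h * (d * l)) * ee (-(θ (h + d * k) * (d * ((l - k : ℤ) : ℝ)))) := by
          rw [← ee_add, ← ee_add]
          congr 1
          push_cast
          ring
        linear_combination (-(κ h * (starRingEnd ℂ) (κ (h + d * k)))) * h5
      · rw [if_neg hU, if_neg fun hh => hU hh.2]
    · rw [if_neg hY]
      symm
      refine sum_eq_zero fun k _ => ?_
      rw [if_neg fun hh => hY hh.1]
  rw [sum_congr rfl h2, sum_comm]
  refine sum_congr rfl fun h _ => ?_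
  rw [sum_comm]
  refine sum_congr rfl fun k _ => ?_
  unfold II
  rw [mul_sum, sum_filter]

end Pool.Agent.E8helper97.GB
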